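import Mathlib
import Pool.Agent.Helper26.AF.Goals
import Pool.Agent.Helper26.AL.GoalsA

set_option autoImplicit false

namespace Pool.Agent.Helper84.AL

open Finset Pool.Agent.Helper26.AF Pool.Agent.Helper26.AL

/-- reachability in a closed set. -/
theorem reach_closed {n : ℕ} (G : SimpleGraph (Fin n)) (W : Finset (Fin n)) (hW : Clo G W)
    (x : Fin #W) (y : Fin n) (h : G.Reachable (W.orderEmbOfFin rfl x) y) :
    ∃ y' : Fin #W, W.orderEmbOfFin rfl y' = y ∧ (gi G W).Reachable x y' := by
  obtain ⟨p⟩ := h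
  have key : ∀ (u v : Fin n) (p : G.Walk u v) (x : Fin #W), W.orderEmbOfFin rfl x = u →
      ∃ y' : Fin #W, W.orderEmbOfFin rfl y' = v ∧ (gi G W).Reachable x y' := by
    intro u v p
    induction p with
    | nil => intro x hx; exact ⟨x, hx, SimpleGraph.Reachable.refl _⟩
    | cons hadj p ih =>
      intro x hx
      rename_i u' v' w'
      have hu : u' ∈ W := by rw [← hx]; exact W.orderEmbOfFin_mem rfl x
      have hv : v' ∈ W := hW _ _ hadj hu
      have hv' : v' ∈ Set.range (W.orderEmbOfFin rfl) := by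
        rw [Finset.range_orderEmbOfFin]; exact hv
      obtain ⟨z, hz⟩ := hv'
      obtain ⟨y', h1, h2⟩ := ih z hz
      refine ⟨y', h1, SimpleGraph.Reachable.trans ?_ h2⟩
      apply SimpleGraph.Adj.reachable
      change G.Adj (W.orderEmbOfFin rfl x) (W.orderEmbOfFin rfl z)
      rw [hx, hz]
      exact hadj
  exact key _ _ p x rfl

theorem reach_up {n : ℕ} (G : SimpleGraph (Fin n)) (W : Finset (Fin n))
    (x y : Fin #W) (h : (gi G W).Reachable x y) :
    G.Reachable (W.orderEmbOfFin rfl x) (W.orderEmbOfFin rfl y) := by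
  let f : gi G W →g G := ⟨W.orderEmbOfFin rfl, fun {a b} h => h⟩
  exact h.map f

theorem comp_up {n : ℕ} (G : SimpleGraph (Fin n)) (W : Finset (Fin n)) (hW : Clo G W)
    (Q : Finset (Fin #W)) (hQ : IsComp (gi G W) Q) :
    IsComp G (Q.map (W.orderEmbOfFin rfl).toEmbedding) := by
  obtain ⟨c, hc⟩ := hQ
  induction c using SimpleGraph.ConnectedComponent.ind with
  | h x =>
    refine ⟨G.connectedComponentMk (W.orderEmbOfFin rfl x), ?_⟩
    ext y
    rw [SimpleGraph.ConnectedComponent.mem_supp_iff, SimpleGraph.ConnectedComponent.eq,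
      Finset.coe_map]
    have hmem : ∀ z : Fin #W, z ∈ Q ↔ (gi G W).Reachable z x := by
      intro z
      rw [← Finset.mem_coe, ← hc, SimpleGraph.ConnectedComponent.mem_supp_iff,
        SimpleGraph.ConnectedComponent.eq]
    constructor
    · intro h
      obtain ⟨y', h1, h2⟩ := reach_closed G W hW x y h.symm
      exact ⟨y', (hmem y').2 h2.symm, h1⟩
    · rintro ⟨z, hz, rfl⟩
      exact reach_up G W z x ((hmem z).1 hz)

theorem eIn_up {n : ℕ} (G : SimpleGraph (Fin n)) (W : Finset (Fin n)) (Q : Finset (Fin #W)) :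
    eIn (gi G W) Q ≤ eIn G (Q.map (W.orderEmbOfFin rfl).toEmbedding) := by
  unfold eIn
  refine Nat.card_le_card_of_injective (fun e => ⟨Sym2.map (W.orderEmbOfFin rfl) e.1, ?_, ?_⟩) ?_
  · obtain ⟨e, he, _⟩ := e
    induction e using Sym2.ind with
    | _ a b =>
      rw [Sym2.map_mk]
      exact he
  · obtain ⟨e, he, h2⟩ := e
    intro v hv
    rw [Sym2.mem_map] at hv
    obtain ⟨a, ha, rfl⟩ := hv
    exact Finset.mem_map_of_mem _ (h2 a ha)
  · intro e e' h
    apply Subtype.ext
    have h1 := congrArg Subtype.val h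
    exact Sym2.map.injective (W.orderEmbOfFin rfl).injective h1

theorem goalEQC (hGLU : Pool.Agent.Helper26.AL.StmtGLU) (hISO : Pool.Agent.Helper26.AL.StmtISO)
    (hCLO : Pool.Agent.Helper26.AL.StmtCLO) (hMONO : Pool.Agent.Helper26.AF.StmtMONO)
    (hUG : Pool.Agent.Helper26.AF.StmtUG) : Pool.Agent.Helper26.AL.StmtEQC := by
  intro n R g G hR
  set U := (cxs R G).sup id with hU
  have hclo : Clo G U := ((hCLO n R G).1 _ (Finset.Subset.refl _)).1
  have hcloc : Clo G Uᶜ := by
    intro x y hxy hx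
    rw [mem_compl] at hx ⊢
    exact fun hy => hx (hclo y x hxy.symm hy)
  constructor
  · intro h
    have h0 : Embeds (gi G Uᶜ) 0 := by
      refine hUG _ _ 0 ?_
      have : ZZ (gi G Uᶜ) = 0 := by
        unfold ZZ
        refine Finset.sum_eq_zero fun Q _ => ?_
        unfold zq
        rw [if_neg]
        rintro ⟨h1, h2⟩
        have h3 := comp_up G Uᶜ hcloc Q h1
        have h4 := eIn_up G Uᶜ Q
        have h5 : (Q.map (Uᶜ.orderEmbOfFin rfl).toEmbedding) ∈ cxs R G := by
          simp only [cxs, Finset.mem_filter, Finset.mem_univ, true_and]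
          refine ⟨h3, ?_, hR _ h3⟩
          rw [card_map]
          omega
        have h6 : Q.Nonempty := by
          obtain ⟨c, hc⟩ := h1
          obtain ⟨x, hx⟩ := c.nonempty_supp
          rw [hc] at hx
          exact ⟨x, hx⟩
        obtain ⟨x, hx⟩ := h6
        have h7 : Uᶜ.orderEmbOfFin rfl x ∈ U := by
          have h9 : ∀ z, z ∈ Q.map (Uᶜ.orderEmbOfFin rfl).toEmbedding → z ∈ U := by
            intro z hz
            rw [hU, Finset.mem_sup]
            exact ⟨_, h5, hz⟩
          exact h9 _ (Finset.mem_map_of_mem _ hx)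
        have h8 : Uᶜ.orderEmbOfFin rfl x ∈ Uᶜ := Uᶜ.orderEmbOfFin_mem rfl x
        rw [mem_compl] at h8
        exact h8 h7
      rw [this]
      exact Nat.zero_le _
    have := hGLU n G U g 0 hclo h h0
    rwa [add_zero] at this
  · intro h
    refine (hISO (Fin n) (Fin #U) (U.orderEmbOfFin rfl).toEmbedding (gi G U) g).1 ?_
    refine hMONO _ G _ g ?_ h
    exact SimpleGraph.map_comap_le _ _

end Pool.Agent.Helper84.AL
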